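import Pool.Agent.LCI.Stmts

/-! Row GEB of squad LCI: elementary properties of the bound `Ge`. -/

namespace Pool.Agent.LCI.H53

open scoped BigOperators

section
variable {k K : Type} [Field k] [Field K] [Algebra k K] (v : RVal k K)

lemma add_b {r : ℝ} {x y : K} (hx : x ≠ 0 → r ≤ v.v x) (hy : y ≠ 0 → r ≤ v.v y)
    (h : x + y ≠ 0) : r ≤ v.v (x + y) := by
  by_cases h1 : x = 0
  · subst h1
    rw [zero_add] at h ⊢
    exact hy h
  by_cases h2 : y = 0
  · subst h2
    rw [add_zero] at h ⊢
    exact hx h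
  exact (le_min (hx h1) (hy h2)).trans (v.add' x y h1 h2 h)

lemma sum_b {ι : Type} {r : ℝ} (s : Finset ι) (f : ι → K)
    (hf : ∀ i ∈ s, f i ≠ 0 → r ≤ v.v (f i)) : ∑ i ∈ s, f i ≠ 0 → r ≤ v.v (∑ i ∈ s, f i) := by
  classical
  induction s using Finset.induction_on with
  | empty =>
    intro h
    exact absurd Finset.sum_empty h
  | insert a s ha ih =>
    intro h
    rw [Finset.sum_insert ha] at h ⊢
    exact add_b v (hf a (Finset.mem_insert_self a s))
      (ih (fun i hi => hf i (Finset.mem_insert_of_mem hi))) h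

lemma ge_mul {P Q : PowerSeries K} {r s : ℝ} (hP : Ge v P r) (hQ : Ge v Q s) :
    Ge v (P * Q) (r + s) := by
  intro j
  rw [PowerSeries.coeff_mul]
  apply sum_b
  intro i _ h
  have h1 : PowerSeries.coeff i.1 P ≠ 0 := left_ne_zero_of_mul h
  have h2 : PowerSeries.coeff i.2 Q ≠ 0 := right_ne_zero_of_mul h
  rw [v.mul' _ _ h1 h2]
  exact add_le_add (hP i.1 h1) (hQ i.2 h2)

lemma v_one : v.v 1 = 0 := by
  have := v.const' 1 one_ne_zero
  rwa [map_one] at this

lemma ge_C (a : K) : Ge v (PowerSeries.C a) (v.v a) := by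
  intro j h
  rw [PowerSeries.coeff_C] at h ⊢
  split_ifs at h ⊢ with hj
  · exact le_rfl
  · exact absurd rfl h

end

theorem geb : GebStmt := by
  intro k R K _ _ _ _ _ _ _ _ _ v hR
  refine ⟨?_, ?_, ?_, ?_, ?_⟩
  · intro P Q r hP hQ j h
    rw [map_add] at h ⊢
    exact add_b v (hP j) (hQ j) h
  · intro P Q r s hP hQ
    exact ge_mul v hP hQ
  · intro P r m hP
    induction m with
    | zero =>
      have e : (PowerSeries.C (1 : K)) = P ^ 0 := by simp
      rw [← e]
      have h := ge_C v (1 : K)
      rw [v_one v] at h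
      simpa using h
    | succ m ih =>
      rw [pow_succ]
      have h := ge_mul v ih hP
      have e : ((m + 1 : ℕ) : ℝ) * r = (m : ℝ) * r + r := by
        push_cast
        ring
      rw [e]
      exact h
  · intro a
    exact ge_C v a
  · intro P r U hU h
    have hunit : IsUnit U := by
      rw [PowerSeries.isUnit_iff_constantCoeff, hU]
      exact isUnit_one
    obtain ⟨W, hW⟩ := hunit.exists_right_inv
    have hGW : Ge v (PowerSeries.map (algebraMap R K) W) 0 := by
      intro j hj
      rw [PowerSeries.coeff_map] at hj ⊢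
      apply hR
      rintro h0
      apply hj
      rw [h0, map_zero]
    have h2 := ge_mul v h hGW
    rw [mul_assoc, ← map_mul, hW, map_one, mul_one, add_zero] at h2
    exact h2

end Pool.Agent.LCI.H53
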